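import Pool.Agent.N550.OC.Stm

set_option autoImplicit false

open Set Filter Topology Metric Function MeasureTheory
open scoped Manifold ContDiff

noncomputable section

namespace Pool.Agent.N751.OCKey

open Pool.Agent.Y522 Pool.Agent.N550.KH Pool.Agent.N550.BC Pool.Agent.N550.OC

theorem slice_contDiffAt {k : ℕ} {g : ℝ → E k → E k} {t : ℝ} {y : E k}
    (h : ContDiffAt ℝ ∞ (fun p : ℝ × E k => g p.1 p.2) (t, y)) : ContDiffAt ℝ ∞ (g t) y := by
  have h1 : ContDiffAt ℝ ∞ (fun z : E k => ((t, z) : ℝ × E k)) y :=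
    contDiffAt_const.prodMk contDiffAt_id
  exact ContDiffAt.comp (g := fun p : ℝ × E k => g p.1 p.2)
    (f := fun z : E k => ((t, z) : ℝ × E k)) y h h1

theorem map_nhds_of {k : ℕ} {f : E k → E k} {y : E k} (h : ContDiffAt ℝ ∞ f y)
    (hb : Bijective (fderiv ℝ f y)) : Filter.map f (𝓝 y) = 𝓝 (f y) := by
  have h1 : HasStrictFDerivAt f (fderiv ℝ f y) y := h.hasStrictFDerivAt (by simp)
  exact h1.map_nhds_eq_of_surj (LinearMap.range_eq_top.2 hb.2)

theorem isOpen_image_of {k : ℕ} {f : E k → E k} {s : Set (E k)} (_hs : IsOpen s)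
    (h : ∀ y ∈ s, f '' s ∈ 𝓝 (f y)) : IsOpen (f '' s) := by
  rw [isOpen_iff_mem_nhds]
  rintro _ ⟨y, hy, rfl⟩
  exact h y hy

theorem image_mem_of {k : ℕ} {f : E k → E k} {s : Set (E k)} (hs : IsOpen s) {y : E k}
    (hy : y ∈ s) (h : ContDiffAt ℝ ∞ f y) (hb : Bijective (fderiv ℝ f y)) :
    f '' s ∈ 𝓝 (f y) := by
  rw [← map_nhds_of h hb]
  exact image_mem_map (hs.mem_nhds hy)

/-- two maps which agree on the sphere -/
theorem image_subset_of {k : ℕ} {f h : E k → E k} {r : ℝ} (_hr : 0 < r)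
    (hfc : ContinuousOn f (closedBall 0 r)) (hhc : ContinuousOn h (closedBall 0 r))
    (hfi : InjOn f (closedBall 0 r)) (hs : ∀ y, ‖y‖ = r → f y = h y)
    (hho : IsOpen (h '' ball 0 r)) {y₀ : E k} (hy₀ : y₀ ∈ ball (0 : E k) r)
    (he : f y₀ ∈ h '' ball 0 r) : f '' ball 0 r ⊆ h '' ball 0 r := by
  have hconn : IsPreconnected (f '' ball 0 r) :=
    ((convex_ball (0 : E k) r).isPreconnected).image f (hfc.mono ball_subset_closedBall)
  have hcl : IsClosed (h '' closedBall 0 r) :=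
    ((isCompact_closedBall (0 : E k) r).image_of_continuousOn hhc).isClosed
  refine hconn.subset_left_of_subset_union hho hcl.isOpen_compl ?_ ?_ ?_
  · rw [Set.disjoint_left]
    rintro x ⟨y, hy, rfl⟩ hx
    exact hx ⟨y, ball_subset_closedBall hy, rfl⟩
  · rintro _ ⟨y, hy, rfl⟩
    by_cases hm : f y ∈ h '' closedBall 0 r
    · left
      obtain ⟨w, hw, hwe⟩ := hm
      rcases lt_or_eq_of_le (mem_closedBall_zero_iff.1 hw) with hlt | heq
      · exact ⟨w, mem_ball_zero_iff.2 hlt, hwe⟩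
      · exfalso
        have h1 : f w = f y := by rw [hs w heq, hwe]
        have h2 := hfi hw (ball_subset_closedBall hy) h1
        rw [h2] at heq
        have := mem_ball_zero_iff.1 hy
        linarith
    · right
      exact hm
  · exact ⟨f y₀, ⟨y₀, hy₀, rfl⟩, he⟩

/-- K2 -/
theorem near {k : ℕ} {g : ℝ → E k → E k} {ε r : ℝ} (hg : Fam k g ε) (hr : 0 < r) (hrε : r < ε) :
    ∃ d : ℝ, 0 < d ∧ ∀ t, |t| < d → ball (g 0 0) d ⊆ g t '' ball 0 r := by
  obtain ⟨hε, hc, hsm, hinj⟩ := hg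
  -- first the statement for `t ≠ 0` and radius `r / 2`
  obtain ⟨ρ, hρ, hρr⟩ : ∃ ρ : ℝ, 0 < ρ ∧ ρ < r := ⟨r / 2, by linarith, by linarith⟩
  have hm : ∃ m : ℝ, 0 < m ∧ ∀ y ∈ sphere (0 : E k) ρ, m ≤ ‖g 0 y - g 0 0‖ := by
    by_cases hne : (sphere (0 : E k) ρ).Nonempty
    · have hcont : ContinuousOn (fun y => ‖g 0 y - g 0 0‖) (sphere (0 : E k) ρ) := by
        intro y hy
        have hyn : ‖y‖ = ρ := by simpa using hy
        have h1 : ContinuousAt (fun p : ℝ × E k => g p.1 p.2) (0, y) :=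
          hc 0 y (by simpa using hε) (by linarith)
        have h2 : ContinuousAt (fun z : E k => ((0, z) : ℝ × E k)) y := by fun_prop
        have h3 : ContinuousAt (fun z : E k => g 0 z) y :=
          ContinuousAt.comp (f := fun z : E k => ((0, z) : ℝ × E k)) h1 h2
        exact ((h3.sub continuousAt_const).norm).continuousWithinAt
      obtain ⟨y₁, hy₁, hmin⟩ := (isCompact_sphere (0 : E k) ρ).exists_isMinOn hne hcont
      refine ⟨‖g 0 y₁ - g 0 0‖, ?_, fun y hy => hmin hy⟩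
      rw [norm_pos_iff, sub_ne_zero]
      intro h
      have hy₁n : ‖y₁‖ = ρ := by simpa using hy₁
      have := hinj 0 (by simpa using hε) (mem_ball_zero_iff.2 (by linarith : ‖y₁‖ < ε))
        (mem_ball_zero_iff.2 (by simpa using hε)) h
      rw [this, norm_zero] at hy₁n
      linarith
    · refine ⟨1, one_pos, fun y hy => (hne ⟨y, hy⟩).elim⟩
  obtain ⟨m, hm0, hm⟩ := hm
  have hev1 : ∀ᶠ t in 𝓝 (0 : ℝ), ∀ y ∈ sphere (0 : E k) ρ, m / 2 < ‖g t y - g 0 0‖ := by
    refine (isCompact_sphere (0 : E k) ρ).eventually_forall_of_forall_eventually ?_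
    intro y hy
    have hyn : ‖y‖ = ρ := by simpa using hy
    have h1 : ContinuousAt (fun p : ℝ × E k => g p.1 p.2) (0, y) :=
      hc 0 y (by simpa using hε) (by linarith)
    have h2 : ContinuousAt (fun p : ℝ × E k => ‖g p.1 p.2 - g 0 0‖) (0, y) :=
      (h1.sub continuousAt_const).norm
    exact h2.eventually (lt_mem_nhds (by have := hm y hy; show m / 2 < ‖g 0 y - g 0 0‖; linarith))
  have hev2 : ∀ᶠ t in 𝓝 (0 : ℝ), ‖g t 0 - g 0 0‖ < m / 2 := by
    have h1 : ContinuousAt (fun p : ℝ × E k => g p.1 p.2) (0, 0) :=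
      hc 0 0 (by simpa using hε) (by simpa using hε)
    have h2 : ContinuousAt (fun t : ℝ => ((t, 0) : ℝ × E k)) 0 := by fun_prop
    have h3 : ContinuousAt (fun t : ℝ => g t 0) 0 :=
      ContinuousAt.comp (f := fun t : ℝ => ((t, 0) : ℝ × E k)) h1 h2
    have h4 : ContinuousAt (fun t : ℝ => ‖g t 0 - g 0 0‖) 0 := (h3.sub continuousAt_const).norm
    exact h4.eventually (gt_mem_nhds (by simpa using hm0))
  have hev3 : ∀ᶠ t in 𝓝 (0 : ℝ), |t| < ε := by
    have : ContinuousAt (fun t : ℝ => |t|) 0 := continuous_abs.continuousAt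
    exact this.eventually (gt_mem_nhds (by simpa using hε))
  have hcla : ∀ t, |t| < ε → ContinuousOn (g t) (closedBall 0 ρ) := by
    intro t ht y hy
    have h1 : ContinuousAt (fun p : ℝ × E k => g p.1 p.2) (t, y) :=
      hc t y ht (by have := mem_closedBall_zero_iff.1 hy; linarith)
    have h2 : ContinuousAt (fun z : E k => ((t, z) : ℝ × E k)) y := by fun_prop
    exact (ContinuousAt.comp (f := fun z : E k => ((t, z) : ℝ × E k)) h1 h2).continuousWithinAt
  have hkey : ∀ t, |t| < ε → t ≠ 0 → (∀ y ∈ sphere (0 : E k) ρ, m / 2 < ‖g t y - g 0 0‖) →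
      ‖g t 0 - g 0 0‖ < m / 2 → ball (g 0 0) (m / 2) ⊆ g t '' ball 0 ρ := by
    intro t ht ht0 h1 h2
    have hopen : IsOpen (g t '' ball 0 ρ) := by
      refine isOpen_image_of isOpen_ball fun y hy => ?_
      have hyρ := mem_ball_zero_iff.1 hy
      have h := hsm t y ht (by linarith) (Or.inl ht0)
      exact image_mem_of isOpen_ball hy (slice_contDiffAt h.1) h.2
    have hcl : IsClosed (g t '' closedBall 0 ρ) :=
      ((isCompact_closedBall (0 : E k) ρ).image_of_continuousOn (hcla t ht)).isClosed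
    have hconn : IsPreconnected (ball (g 0 0) (m / 2)) := (convex_ball _ _).isPreconnected
    refine hconn.subset_left_of_subset_union hopen hcl.isOpen_compl ?_ ?_ ?_
    · rw [Set.disjoint_left]
      rintro x ⟨y, hy, rfl⟩ hx
      exact hx ⟨y, ball_subset_closedBall hy, rfl⟩
    · intro x hx
      by_cases hmx : x ∈ g t '' closedBall 0 ρ
      · left
        obtain ⟨w, hw, hwe⟩ := hmx
        rcases lt_or_eq_of_le (mem_closedBall_zero_iff.1 hw) with hlt | heq
        · exact ⟨w, mem_ball_zero_iff.2 hlt, hwe⟩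
        · exfalso
          have h3 := h1 w (by simpa using heq)
          rw [hwe, ← dist_eq_norm] at h3
          have h4 := mem_ball.1 hx
          linarith
      · right
        exact hmx
    · refine ⟨g t 0, ?_, 0, by simpa using hρ, rfl⟩
      rw [mem_ball, dist_eq_norm]
      exact h2
  obtain ⟨d, hd, hdall⟩ := Metric.eventually_nhds_iff.1 (hev1.and (hev2.and hev3))
  refine ⟨min d (m / 2), lt_min hd (by linarith), fun t ht x hx => ?_⟩
  have htd : |t| < d := lt_of_lt_of_le ht (min_le_left _ _)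
  have hx' : x ∈ ball (g 0 0) (m / 2) := ball_subset_ball (min_le_right _ _) hx
  obtain ⟨q1, q2, q3⟩ := hdall (show dist t 0 < d by simpa using htd)
  by_cases ht0 : t = 0
  · subst ht0
    by_contra hcon
    have hnot : ∀ y ∈ closedBall (0 : E k) ρ, ∀ᶠ z in 𝓝 ((0 : ℝ), y), g z.1 z.2 ≠ x := by
      intro y hy
      have hyρ := mem_closedBall_zero_iff.1 hy
      have h1 : ContinuousAt (fun p : ℝ × E k => g p.1 p.2) (0, y) :=
        hc 0 y (by simpa using hε) (by linarith)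
      have hne : g 0 y ≠ x := by
        intro he
        exact hcon ⟨y, mem_ball_zero_iff.2 (by linarith), he⟩
      exact h1.eventually_ne hne
    have hev4 := (isCompact_closedBall (0 : E k) ρ).eventually_forall_of_forall_eventually
      (x₀ := (0 : ℝ)) (P := fun t y => g t y ≠ x) hnot
    have hev5 : ∀ᶠ t in 𝓝[≠] (0 : ℝ), (∀ y ∈ closedBall (0 : E k) ρ, g t y ≠ x) ∧
        (∀ y ∈ sphere (0 : E k) ρ, m / 2 < ‖g t y - g 0 0‖) ∧ ‖g t 0 - g 0 0‖ < m / 2 ∧
        |t| < ε ∧ t ≠ 0 := by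
      filter_upwards [hev4.filter_mono nhdsWithin_le_nhds, hev1.filter_mono nhdsWithin_le_nhds,
        hev2.filter_mono nhdsWithin_le_nhds, hev3.filter_mono nhdsWithin_le_nhds,
        self_mem_nhdsWithin] with t a1 a2 a3 a4 a5
      exact ⟨a1, a2, a3, a4, a5⟩
    obtain ⟨t, a1, a2, a3, a4, a5⟩ := hev5.exists
    obtain ⟨y, hy, hye⟩ := hkey t a4 a5 a2 a3 hx'
    exact a1 y (ball_subset_closedBall hy) hye
  · obtain ⟨y, hy, hye⟩ := hkey t q3 ht0 q1 q2 hx'
    exact ⟨y, ball_subset_ball hρr.le hy, hye⟩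

theorem isOpen_g {k : ℕ} {g : ℝ → E k → E k} {ε r s : ℝ} (hg : Fam k g ε) (hr : 0 < r)
    (hrε : r < ε) (hs : |s| < ε) : IsOpen (g s '' ball 0 r) := by
  refine isOpen_image_of isOpen_ball fun y hy => ?_
  have hyr := mem_ball_zero_iff.1 hy
  by_cases h0 : s ≠ 0 ∨ y ≠ 0
  · have h := hg.2.2.1 s y hs (by linarith) h0
    exact image_mem_of isOpen_ball hy (slice_contDiffAt h.1) h.2
  · push Not at h0
    obtain ⟨rfl, rfl⟩ := h0
    obtain ⟨d, hd, h⟩ := near hg hr hrε
    exact Filter.mem_of_superset (ball_mem_nhds _ hd) (h 0 (by simpa using hd))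

theorem isOpen_F {k : ℕ} {g F : ℝ → E k → E k} {ε ρ τ r r' s : ℝ}
    (hF : Res k g F ε ρ τ r r') (hs : |s| < 2 * τ) : IsOpen (F s '' ball 0 r) := by
  obtain ⟨h1, h2, h3, h4, h5, h6, h7, h8, h9, h10, h11, h12⟩ := hF
  refine isOpen_image_of isOpen_ball fun y hy => ?_
  have hyr := mem_ball_zero_iff.1 hy
  exact image_mem_of isOpen_ball hy (slice_contDiffAt (h7 s y hs (by linarith)))
    (h8 s y hs hyr.le)

theorem cont_g {k : ℕ} {g : ℝ → E k → E k} {ε r s : ℝ} (hg : Fam k g ε) (hrε : r < ε)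
    (hs : |s| < ε) : ContinuousOn (g s) (closedBall 0 r) := by
  intro y hy
  have h1 : ContinuousAt (fun p : ℝ × E k => g p.1 p.2) (s, y) :=
    hg.2.1 s y hs (by have := mem_closedBall_zero_iff.1 hy; linarith)
  have h2 : ContinuousAt (fun z : E k => ((s, z) : ℝ × E k)) y := by fun_prop
  exact (ContinuousAt.comp (f := fun z : E k => ((s, z) : ℝ × E k)) h1 h2).continuousWithinAt

/-- K1 -/
theorem image_eq {k : ℕ} {g F : ℝ → E k → E k} {ε ρ τ r r' s : ℝ} (hk : 2 ≤ k)
    (hg : Fam k g ε) (hF : Res k g F ε ρ τ r r') (hs : |s| < 2 * τ) :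
    F s '' ball 0 r = g s '' ball 0 r := by
  have hF' := hF
  obtain ⟨h1, h2, h3, h4, h5, h6, h7, h8, h9, h10, h11, h12⟩ := hF'
  have hr : 0 < r := h4.trans h5
  have hsε : |s| < ε := hs.trans h3
  haveI : Nonempty (Fin k) := ⟨⟨0, by omega⟩⟩
  haveI : Nontrivial (E k) := inferInstance
  obtain ⟨y₀, hy₀⟩ := exists_norm_eq (E k) h4.le
  have hy₀r : y₀ ∈ ball (0 : E k) r := mem_ball_zero_iff.2 (by linarith)
  have he : F s y₀ = g s y₀ := h10 s y₀ hs hy₀.ge (by linarith)
  have hcF : ContinuousOn (F s) (closedBall 0 r) := by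
    intro y hy
    have hyr := mem_closedBall_zero_iff.1 hy
    exact (slice_contDiffAt (h7 s y hs (by linarith))).continuousAt.continuousWithinAt
  have hcg := cont_g hg h6 hsε
  have hig : InjOn (g s) (closedBall 0 r) :=
    (hg.2.2.2 s hsε).mono (closedBall_subset_ball h6)
  have hsph : ∀ y, ‖y‖ = r → F s y = g s y := fun y hy => h10 s y hs (by linarith) (by linarith)
  refine Subset.antisymm ?_ ?_
  · exact image_subset_of hr hcF hcg (h9 s hs) hsph (isOpen_g hg hr h6 hsε) hy₀r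
      ⟨y₀, hy₀r, he.symm⟩
  · exact image_subset_of hr hcg hcF hig (fun y hy => (hsph y hy).symm) (isOpen_F hF hs) hy₀r
      ⟨y₀, hy₀r, he⟩

end Pool.Agent.N751.OCKey
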