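import Pool.Agent.N699.PC.Stm

/-! Project Q3 (helper699), leaf P12A: the two representation numbers have the same parity (helper751). -/

set_option autoImplicit false

namespace Pool.Agent.N751.Q3
open Finset Pool.Agent.N699.PC

def S1 (N : ℕ) : Finset (ℕ × ℕ) :=
  (range (N + 1) ×ˢ range (N + 1)).filter (fun p => 1 ≤ p.1 ∧ p.1 < p.2 ∧ 3 * p.2 ^ 2 = p.1 ^ 2 + N)
def S2 (N : ℕ) : Finset (ℕ × ℕ) :=
  (range (N + 1) ×ˢ range (N + 1)).filter (fun p => 1 ≤ p.1 ∧ 1 ≤ p.2 ∧ 2 * p.1 ^ 2 + 3 * p.2 ^ 2 = N)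
def T1 (M : ℕ) : Finset (ℕ × ℕ) :=
  (range (M + 1) ×ˢ range (M + 1)).filter
    (fun p => 1 ≤ p.1 ∧ p.1 < p.2 ∧ 3 * p.2 ^ 2 = p.1 ^ 2 + M ∧ Nat.Coprime p.1 p.2)
def T2 (M : ℕ) : Finset (ℕ × ℕ) :=
  (range (M + 1) ×ˢ range (M + 1)).filter
    (fun p => 1 ≤ p.1 ∧ 1 ≤ p.2 ∧ 2 * p.1 ^ 2 + 3 * p.2 ^ 2 = M ∧ Nat.Coprime p.1 p.2)

theorem P1_eq (N : ℕ) : P1 N = (S1 N).card := rfl
theorem P2_eq (N : ℕ) : P2 N = (S2 N).card := rfl
theorem R1_eq (N : ℕ) : R1 N = (T1 N).card := rfl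
theorem R2_eq (N : ℕ) : R2 N = (T2 N).card := rfl

theorem bd1 {N x y : ℕ} (h1 : 1 ≤ x) (h2 : x < y) (h3 : 3 * y ^ 2 = x ^ 2 + N) :
    x < N + 1 ∧ y < N + 1 := by
  have h : y ≤ N := by nlinarith
  omega

theorem bd2 {N x y : ℕ} (h1 : 1 ≤ x) (h2 : 1 ≤ y) (h3 : 2 * x ^ 2 + 3 * y ^ 2 = N) :
    x < N + 1 ∧ y < N + 1 := by
  constructor <;> nlinarith

theorem mS1 {N x y : ℕ} : (x, y) ∈ S1 N ↔ 1 ≤ x ∧ x < y ∧ 3 * y ^ 2 = x ^ 2 + N := by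
  simp only [S1, mem_filter, mem_product, mem_range]
  exact ⟨fun h => h.2, fun h => ⟨bd1 h.1 h.2.1 h.2.2, h⟩⟩

theorem mS2 {N x y : ℕ} : (x, y) ∈ S2 N ↔ 1 ≤ x ∧ 1 ≤ y ∧ 2 * x ^ 2 + 3 * y ^ 2 = N := by
  simp only [S2, mem_filter, mem_product, mem_range]
  exact ⟨fun h => h.2, fun h => ⟨bd2 h.1 h.2.1 h.2.2, h⟩⟩

theorem mT1 {N x y : ℕ} :
    (x, y) ∈ T1 N ↔ 1 ≤ x ∧ x < y ∧ 3 * y ^ 2 = x ^ 2 + N ∧ Nat.Coprime x y := by
  simp only [T1, mem_filter, mem_product, mem_range]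
  exact ⟨fun h => h.2, fun h => ⟨bd1 h.1 h.2.1 h.2.2.1, h⟩⟩

theorem mT2 {N x y : ℕ} :
    (x, y) ∈ T2 N ↔ 1 ≤ x ∧ 1 ≤ y ∧ 2 * x ^ 2 + 3 * y ^ 2 = N ∧ Nat.Coprime x y := by
  simp only [T2, mem_filter, mem_product, mem_range]
  exact ⟨fun h => h.2, fun h => ⟨bd2 h.1 h.2.1 h.2.2.1, h⟩⟩

/-- scaling -/
theorem scale (S T : Finset (ℕ × ℕ)) (g : ℕ) (hg : 1 ≤ g)
    (h : ∀ x y, (x, y) ∈ S ↔ ∃ a b, (a, b) ∈ T ∧ x = g * a ∧ y = g * b) : S.card = T.card := by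
  have h1 : S = T.image (fun p => (g * p.1, g * p.2)) := by
    ext ⟨x, y⟩
    rw [h, mem_image]
    constructor
    · rintro ⟨a, b, h1, rfl, rfl⟩
      exact ⟨(a, b), h1, rfl⟩
    · rintro ⟨⟨a, b⟩, h1, h2⟩
      simp only [Prod.mk.injEq] at h2
      exact ⟨a, b, h1, h2.1.symm, h2.2.symm⟩
  rw [h1, card_image_of_injective]
  rintro ⟨a, b⟩ ⟨c, d⟩ h2
  simp only [Prod.mk.injEq] at h2
  rw [Prod.mk.injEq]
  exact ⟨Nat.eq_of_mul_eq_mul_left hg h2.1, Nat.eq_of_mul_eq_mul_left hg h2.2⟩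

theorem P1_four (N : ℕ) : P1 (4 * N) = P1 N := by
  rw [P1_eq, P1_eq]
  refine scale _ _ 2 (by norm_num) fun x y => ?_
  rw [mS1]
  constructor
  · rintro ⟨h1, h2, h3⟩
    obtain ⟨a, ha⟩ := Nat.even_or_odd' x
    obtain ⟨b, hb⟩ := Nat.even_or_odd' y
    rcases ha with rfl | rfl <;> rcases hb with rfl | rfl
    · refine ⟨a, b, mS1.2 ⟨by omega, by omega, ?_⟩, rfl, rfl⟩
      ring_nf at h3 ⊢
      omega
    · exfalso
      ring_nf at h3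
      omega
    · exfalso
      ring_nf at h3
      omega
    · exfalso
      ring_nf at h3
      omega
  · rintro ⟨a, b, h, rfl, rfl⟩
    obtain ⟨h1, h2, h3⟩ := mS1.1 h
    refine ⟨by omega, by omega, ?_⟩
    ring_nf at h3 ⊢
    omega

theorem P2_four (N : ℕ) : P2 (4 * N) = P2 N := by
  rw [P2_eq, P2_eq]
  refine scale _ _ 2 (by norm_num) fun x y => ?_
  rw [mS2]
  constructor
  · rintro ⟨h1, h2, h3⟩
    obtain ⟨a, ha⟩ := Nat.even_or_odd' x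
    obtain ⟨b, hb⟩ := Nat.even_or_odd' y
    rcases ha with rfl | rfl <;> rcases hb with rfl | rfl
    · refine ⟨a, b, mS2.2 ⟨by omega, by omega, ?_⟩, rfl, rfl⟩
      ring_nf at h3 ⊢
      omega
    · exfalso
      ring_nf at h3
      omega
    · exfalso
      ring_nf at h3
      omega
    · exfalso
      ring_nf at h3
      omega
  · rintro ⟨a, b, h, rfl, rfl⟩
    obtain ⟨h1, h2, h3⟩ := mS2.1 h
    refine ⟨by omega, by omega, ?_⟩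
    ring_nf at h3 ⊢
    omega

theorem fib1 (g M : ℕ) (hg : 1 ≤ g) :
    ((S1 (g ^ 2 * M)).filter (fun p => Nat.gcd p.1 p.2 = g)).card = R1 M := by
  rw [R1_eq]
  refine scale _ _ g hg fun x y => ?_
  rw [mem_filter, mS1]
  have hg2 : 0 < g ^ 2 := by positivity
  constructor
  · rintro ⟨⟨h1, h2, h3⟩, h4⟩
    obtain ⟨a, b, hab, hx, hy⟩ := Nat.exists_coprime x y
    have h4' : Nat.gcd x y = g := h4
    rw [h4'] at hx hy
    refine ⟨a, b, mT1.2 ⟨?_, ?_, ?_, hab⟩, by rw [hx, mul_comm], by rw [hy, mul_comm]⟩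
    · rcases Nat.eq_zero_or_pos a with h0 | h0
      · rw [h0] at hx
        omega
      · exact h0
    · rw [hx, hy] at h2
      exact lt_of_mul_lt_mul_right h2 (Nat.zero_le g)
    · rw [hx, hy] at h3
      apply Nat.eq_of_mul_eq_mul_left hg2
      linear_combination h3
  · rintro ⟨a, b, h, rfl, rfl⟩
    obtain ⟨h1, h2, h3, h4⟩ := mT1.1 h
    refine ⟨⟨Nat.mul_pos hg h1, Nat.mul_lt_mul_of_pos_left h2 hg, ?_⟩, ?_⟩
    · linear_combination g ^ 2 * h3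
    · show Nat.gcd (g * a) (g * b) = g
      rw [Nat.gcd_mul_left, h4.gcd_eq_one, mul_one]

theorem fib2 (g M : ℕ) (hg : 1 ≤ g) :
    ((S2 (g ^ 2 * M)).filter (fun p => Nat.gcd p.1 p.2 = g)).card = R2 M := by
  rw [R2_eq]
  refine scale _ _ g hg fun x y => ?_
  rw [mem_filter, mS2]
  have hg2 : 0 < g ^ 2 := by positivity
  constructor
  · rintro ⟨⟨h1, h2, h3⟩, h4⟩
    obtain ⟨a, b, hab, hx, hy⟩ := Nat.exists_coprime x y
    have h4' : Nat.gcd x y = g := h4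
    rw [h4'] at hx hy
    refine ⟨a, b, mT2.2 ⟨?_, ?_, ?_, hab⟩, by rw [hx, mul_comm], by rw [hy, mul_comm]⟩
    · rcases Nat.eq_zero_or_pos a with h0 | h0
      · rw [h0] at hx
        omega
      · exact h0
    · rcases Nat.eq_zero_or_pos b with h0 | h0
      · rw [h0] at hy
        omega
      · exact h0
    · rw [hx, hy] at h3
      apply Nat.eq_of_mul_eq_mul_left hg2
      linear_combination h3
  · rintro ⟨a, b, h, rfl, rfl⟩
    obtain ⟨h1, h2, h3, h4⟩ := mT2.1 h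
    refine ⟨⟨Nat.mul_pos hg h1, Nat.mul_pos hg h2, ?_⟩, ?_⟩
    · linear_combination g ^ 2 * h3
    · show Nat.gcd (g * a) (g * b) = g
      rw [Nat.gcd_mul_left, h4.gcd_eq_one, mul_one]

/-- the possible values of the gcd -/
def G (N : ℕ) : Finset ℕ := (range (N + 1)).filter (fun g => 1 ≤ g ∧ g ^ 2 ∣ N)

theorem mG {N g : ℕ} (hN : 1 ≤ N) (h1 : 1 ≤ g) (h2 : g ^ 2 ∣ N) : g ∈ G N := by
  simp only [G, mem_filter, mem_range]
  have h3 := Nat.le_of_dvd hN h2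
  refine ⟨?_, h1, h2⟩
  nlinarith

theorem sum1 (N : ℕ) (hN : 1 ≤ N) : P1 N = ∑ g ∈ G N, R1 (N / g ^ 2) := by
  rw [P1_eq, card_eq_sum_card_fiberwise (f := fun p : ℕ × ℕ => Nat.gcd p.1 p.2) (t := G N)]
  · refine sum_congr rfl fun g hg => ?_
    simp only [G, mem_filter, mem_range] at hg
    obtain ⟨M, hM⟩ := hg.2.2
    have hg2 : 0 < g ^ 2 := by
      have := hg.2.1
      positivity
    have h1 : N / g ^ 2 = M := by rw [hM, Nat.mul_div_cancel_left _ hg2]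
    rw [h1, ← fib1 g M hg.2.1, ← hM]
  · rintro ⟨x, y⟩ h
    obtain ⟨h1, h2, h3⟩ := mS1.1 (mem_coe.1 h)
    have h4 : 0 < Nat.gcd x y := Nat.gcd_pos_of_pos_left _ h1
    refine mem_coe.2 (mG hN h4 ?_)
    have h5 : Nat.gcd x y ^ 2 ∣ x ^ 2 := pow_dvd_pow_of_dvd (Nat.gcd_dvd_left x y) 2
    have h6 : Nat.gcd x y ^ 2 ∣ 3 * y ^ 2 :=
      Dvd.dvd.mul_left (pow_dvd_pow_of_dvd (Nat.gcd_dvd_right x y) 2) 3
    rw [h3] at h6
    exact (Nat.dvd_add_right h5).1 h6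

theorem sum2 (N : ℕ) (hN : 1 ≤ N) : P2 N = ∑ g ∈ G N, R2 (N / g ^ 2) := by
  rw [P2_eq, card_eq_sum_card_fiberwise (f := fun p : ℕ × ℕ => Nat.gcd p.1 p.2) (t := G N)]
  · refine sum_congr rfl fun g hg => ?_
    simp only [G, mem_filter, mem_range] at hg
    obtain ⟨M, hM⟩ := hg.2.2
    have hg2 : 0 < g ^ 2 := by
      have := hg.2.1
      positivity
    have h1 : N / g ^ 2 = M := by rw [hM, Nat.mul_div_cancel_left _ hg2]
    rw [h1, ← fib2 g M hg.2.1, ← hM]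
  · rintro ⟨x, y⟩ h
    obtain ⟨h1, h2, h3⟩ := mS2.1 (mem_coe.1 h)
    have h4 : 0 < Nat.gcd x y := Nat.gcd_pos_of_pos_left _ h1
    refine mem_coe.2 (mG hN h4 ?_)
    have h5 : Nat.gcd x y ^ 2 ∣ 2 * x ^ 2 :=
      Dvd.dvd.mul_left (pow_dvd_pow_of_dvd (Nat.gcd_dvd_left x y) 2) 2
    have h6 : Nat.gcd x y ^ 2 ∣ 3 * y ^ 2 :=
      Dvd.dvd.mul_left (pow_dvd_pow_of_dvd (Nat.gcd_dvd_right x y) 2) 3
    rw [← h3]
    exact dvd_add h5 h6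

theorem mod24 (g M : ℕ) (h : (g ^ 2 * M) % 24 = 11) : M % 24 = 11 := by
  have key : ∀ a b : Fin 24, ((a : ℕ) ^ 2 * b) % 24 = 11 → (b : ℕ) = 11 := by decide
  have h1 := key ⟨g % 24, Nat.mod_lt _ (by norm_num)⟩ ⟨M % 24, Nat.mod_lt _ (by norm_num)⟩
  apply h1
  show ((g % 24) ^ 2 * (M % 24)) % 24 = 11
  rw [← h, Nat.mul_mod (g ^ 2) M, Nat.pow_mod g 2, Nat.mul_mod ((g % 24) ^ 2) (M % 24)]
  simp

theorem t_P12A : P12A := by
  intro hR1 hR2 hR4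
  have h0 : ∀ M : ℕ, M % 24 = 11 → (2 : ℤ) ∣ (R1 M : ℤ) - R2 M := by
    intro M hM
    have h1 := hR1 M hM
    have h2 := hR2 M hM
    have h4 := hR4 M hM
    rw [← h1, ← h2] at h4
    push_cast at h4
    omega
  have h1 : ∀ m : ℕ, (2 : ℤ) ∣ (P1 (24 * m + 11) : ℤ) - P2 (24 * m + 11) := by
    intro m
    rw [sum1 _ (by omega), sum2 _ (by omega)]
    push_cast
    rw [← sum_sub_distrib]
    refine dvd_sum fun g hg => h0 _ ?_
    simp only [G, mem_filter, mem_range] at hg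
    obtain ⟨M, hM⟩ := hg.2.2
    have hg2 : 0 < g ^ 2 := by
      have := hg.2.1
      positivity
    rw [hM, Nat.mul_div_cancel_left _ hg2]
    apply mod24 g M
    rw [← hM]
    omega
  intro k m
  induction k with
  | zero => simpa using h1 m
  | succ k ih =>
    have h2 : 4 ^ (k + 1) * (24 * m + 11) = 4 * (4 ^ k * (24 * m + 11)) := by ring
    rw [h2, P1_four, P2_four]
    exact ih

end Pool.Agent.N751.Q3
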